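import Pool.Agent.H211.CH.Stm

/-!
# Project CH of helper211, task C1: Chebyshev maps are Dickson polynomials (helper154)
-/

set_option autoImplicit false
set_option linter.unusedSectionVars false

open Polynomial

namespace Pool.Agent.H154.CH211

open Pool.Agent.H211.CH

universe u

variable {K : Type u} [Field K]

/-- Solutions of the Pell equation `a ^ 2 - (X ^ 2 - 4) b ^ 2 = 4`. -/
noncomputable def ab (K : Type u) [Field K] : ℕ → K[X] × K[X]
  | 0 => (2, 0)
  | n + 1 => (C (1 / 2) * (X * (ab K n).1 + (X ^ 2 - 4) * (ab K n).2),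
      C (1 / 2) * (X * (ab K n).2 + (ab K n).1))

theorem ab_zero : ab K 0 = (2, 0) := rfl

theorem ab_succ (n : ℕ) : ab K (n + 1) =
    (C (1 / 2) * (X * (ab K n).1 + (X ^ 2 - 4) * (ab K n).2),
      C (1 / 2) * (X * (ab K n).2 + (ab K n).1)) := rfl

variable [CharZero K]

theorem half : (C (1 / 2) : K[X]) * 2 = 1 := by
  have : (2 : K[X]) = C 2 := by rw [map_ofNat]
  rw [this, ← C_mul]
  norm_num

theorem pell (n : ℕ) : (ab K n).1 ^ 2 - (X ^ 2 - 4) * (ab K n).2 ^ 2 = 4 := by
  induction n with
  | zero => rw [ab_zero]; norm_num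
  | succ n ih =>
    rw [ab_succ]
    simp only []
    set a := (ab K n).1
    set b := (ab K n).2
    have h := half (K := K)
    set c : K[X] := C (1 / 2)
    linear_combination ih + (c * 2 + 1) * (a ^ 2 - (X ^ 2 - 4) * b ^ 2) * h

theorem down (n : ℕ) : C (1 / 2) * (X * (ab K (n + 1)).1 - (X ^ 2 - 4) * (ab K (n + 1)).2) =
    (ab K n).1 ∧ C (1 / 2) * (X * (ab K (n + 1)).2 - (ab K (n + 1)).1) = (ab K n).2 := by
  rw [ab_succ]
  simp only []
  set a := (ab K n).1
  set b := (ab K n).2
  have h := half (K := K)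
  set c : K[X] := C (1 / 2)
  constructor
  · linear_combination (c * 2 + 1) * a * h
  · linear_combination (c * 2 + 1) * b * h

theorem rec2 (n : ℕ) : (ab K (n + 2)).1 = X * (ab K (n + 1)).1 - (ab K n).1 := by
  have h1 := (down (K := K) n).1
  rw [ab_succ (n + 1)]
  simp only []
  have h := half (K := K)
  set a := (ab K (n + 1)).1
  set b := (ab K (n + 1)).2
  set c : K[X] := C (1 / 2)
  linear_combination (-1 : K[X]) * h1 + X * a * h

theorem ab_dickson (n : ℕ) : (ab K n).1 = dickson 1 (1 : K) n ∧
    (ab K (n + 1)).1 = dickson 1 (1 : K) (n + 1) := by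
  induction n with
  | zero =>
    have h := half (K := K)
    constructor
    · rw [ab_zero, dickson_zero]
      push_cast
      ring
    · rw [ab_succ, ab_zero, zero_add, dickson_one]
      simp only []
      linear_combination X * h
  | succ n ih =>
    refine ⟨ih.2, ?_⟩
    rw [rec2, ih.1, ih.2, dickson_add_two, C_1, one_mul]

theorem deg_dickson (n : ℕ) : ((dickson 1 (1 : K) (n + 1)).Monic ∧
    (dickson 1 (1 : K) (n + 1)).natDegree = n + 1) ∧
    (dickson 1 (1 : K) n).natDegree = n := by
  induction n using Nat.strong_induction_on with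
  | _ n ih =>
    match n, ih with
    | 0, _ =>
      refine ⟨⟨?_, ?_⟩, ?_⟩
      · rw [zero_add, dickson_one]; exact monic_X
      · rw [zero_add, dickson_one]; exact natDegree_X
      · rw [dickson_zero]
        have : (3 : K[X]) - ((1 : ℕ) : K[X]) = C 2 := by
          rw [map_ofNat]; push_cast; ring
        rw [this, natDegree_C]
    | n + 1, ih =>
      have h1 := ih n (by omega)
      refine ⟨?_, h1.1.2⟩
      rw [dickson_add_two, C_1, one_mul]
      have hX : (X * dickson 1 (1 : K) (n + 1)).Monic := monic_X.mul h1.1.1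
      have hd : (X * dickson 1 (1 : K) (n + 1)).natDegree = n + 2 := by
        rw [monic_X.natDegree_mul h1.1.1, natDegree_X, h1.1.2]
        omega
      have hlt : (dickson 1 (1 : K) n).natDegree < (X * dickson 1 (1 : K) (n + 1)).natDegree := by
        rw [hd, h1.2]; omega
      refine ⟨hX.sub_of_left (degree_lt_degree hlt), ?_⟩
      rw [natDegree_sub_eq_left_of_natDegree_lt hlt, hd]

theorem natDegree_D : (X ^ 2 - 4 : K[X]).natDegree = 2 ∧ (X ^ 2 - 4 : K[X]).Monic := by
  have h4 : (4 : K[X]) = C 4 := by rw [map_ofNat]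
  rw [h4]
  exact ⟨natDegree_X_pow_sub_C, monic_X_pow_sub_C _ (by norm_num)⟩

/-- One step of the descent. -/
theorem step_deg {n : ℕ} {P G : K[X]} (hP : P.natDegree = n + 1) (hG : G.natDegree = n)
    (hG0 : G ≠ 0) (hl : G.leadingCoeff = P.leadingCoeff)
    (h : P ^ 2 - (X ^ 2 - 4) * G ^ 2 = 4) :
    (C (1 / 2) * (X * P - (X ^ 2 - 4) * G)).natDegree ≤ n := by
  have hh := half (K := K)
  have e1 : C (1 / 2) * (X * P - (X ^ 2 - 4) * G) =
      2 * G - X * (C (1 / 2) * (X * G - P)) := by
    linear_combination (2 * G) * hh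
  have h2G : (2 * G).natDegree ≤ n := by
    have : (2 : K[X]) = C 2 := by rw [map_ofNat]
    rw [this]
    exact (natDegree_C_mul_le _ _).trans hG.le
  by_cases h0 : X * G - P = 0
  · rw [e1, h0, mul_zero, mul_zero, sub_zero]
    exact h2G
  · have h3 : (X * G - P) * (X * G + P) = 4 * (G ^ 2 - 1) := by linear_combination (-1 : K[X]) * h
    have hc : (X * G + P).coeff (n + 1) ≠ 0 := by
      rw [coeff_add, coeff_X_mul]
      have h4 : G.coeff n = G.leadingCoeff := by rw [leadingCoeff, hG]
      have h5 : P.coeff (n + 1) = P.leadingCoeff := by rw [leadingCoeff, hP]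
      rw [h4, h5, ← hl, ← two_mul]
      exact mul_ne_zero two_ne_zero (leadingCoeff_ne_zero.2 hG0)
    have h6 : n + 1 ≤ (X * G + P).natDegree := le_natDegree_of_ne_zero hc
    have h7 : X * G + P ≠ 0 := by
      intro h8
      rw [h8, coeff_zero] at hc
      exact hc rfl
    have h9 : (X * G - P).natDegree + (X * G + P).natDegree ≤ 2 * n := by
      rw [← natDegree_mul h0 h7, h3]
      have h4' : (4 : K[X]) = C 4 := by rw [map_ofNat]
      rw [h4']
      refine (natDegree_C_mul_le _ _).trans ?_
      refine (natDegree_sub_le _ _).trans ?_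
      rw [natDegree_one, natDegree_pow, hG]
      exact max_le (le_refl _) (Nat.zero_le _)
    have h10 : (X * (C (1 / 2) * (X * G - P))).natDegree ≤ n := by
      refine natDegree_mul_le.trans ?_
      have := natDegree_C_mul_le (1 / 2) (X * G - P)
      rw [natDegree_X]
      omega
    rw [e1]
    exact (natDegree_sub_le _ _).trans (max_le h2G h10)

theorem descent (n : ℕ) : ∀ P G : K[X], P.natDegree ≤ n → P ^ 2 - (X ^ 2 - 4) * G ^ 2 = 4 →
    ∃ (N : ℕ) (ε σ : K), (ε = 1 ∨ ε = -1) ∧ (σ = 1 ∨ σ = -1) ∧ P = C ε * (ab K N).1 ∧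
      G = C σ * (ab K N).2 := by
  obtain ⟨hD1, hD2⟩ := natDegree_D (K := K)
  have h4C : (4 : K[X]) = C 4 := by rw [map_ofNat]
  induction n with
  | zero =>
    intro P G hP h
    have hP0 : P.natDegree = 0 := by omega
    obtain ⟨p, rfl⟩ := natDegree_eq_zero.1 hP0
    have h1 : (X ^ 2 - 4) * G ^ 2 = C (p ^ 2 - 4) := by
      rw [C_sub, C_pow, ← h4C]
      linear_combination (-1 : K[X]) * h
    have hG : G = 0 := by
      by_contra hG
      have h2 := congrArg natDegree h1
      rw [natDegree_C, hD2.natDegree_mul' (pow_ne_zero 2 hG), hD1] at h2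
      omega
    have hp : p ^ 2 = 4 := by
      rw [hG, zero_pow two_ne_zero, mul_zero] at h1
      have h2 : p ^ 2 - 4 = 0 := C_eq_zero.1 h1.symm
      linear_combination h2
    have hp2 : (p - 2) * (p + 2) = 0 := by linear_combination hp
    have h2C : (2 : K[X]) = C 2 := by rw [map_ofNat]
    rcases mul_eq_zero.1 hp2 with h3 | h3
    · refine ⟨0, 1, 1, Or.inl rfl, Or.inl rfl, ?_, ?_⟩
      · rw [ab_zero]
        show C p = C 1 * 2
        rw [h2C, ← C_mul]
        congr 1
        linear_combination h3
      · rw [hG, ab_zero]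
        simp
    · refine ⟨0, -1, 1, Or.inr rfl, Or.inl rfl, ?_, ?_⟩
      · rw [ab_zero]
        show C p = C (-1) * 2
        rw [h2C, ← C_mul]
        congr 1
        linear_combination h3
      · rw [hG, ab_zero]
        simp
  | succ n ih =>
    intro P G hP h
    by_cases hPn : P.natDegree ≤ n
    · exact ih P G hPn h
    have hPd : P.natDegree = n + 1 := by omega
    have hP2 : (P ^ 2).natDegree = 2 * (n + 1) := by rw [natDegree_pow, hPd]
    have h1 : (X ^ 2 - 4) * G ^ 2 = P ^ 2 - C 4 := by
      rw [← h4C]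
      linear_combination (-1 : K[X]) * h
    have hlt : (C 4 : K[X]).natDegree < (P ^ 2).natDegree := by
      rw [natDegree_C, hP2]; omega
    have hG0 : G ≠ 0 := by
      intro hG
      rw [hG, zero_pow two_ne_zero, mul_zero] at h1
      have h2 := congrArg natDegree h1
      rw [natDegree_zero, natDegree_sub_eq_left_of_natDegree_lt hlt, hP2] at h2
      omega
    have hGd : G.natDegree = n := by
      have h2 := congrArg natDegree h1
      rw [natDegree_sub_eq_left_of_natDegree_lt hlt, hP2,
        hD2.natDegree_mul' (pow_ne_zero 2 hG0), hD1, natDegree_pow] at h2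
      omega
    have hlead : G.leadingCoeff ^ 2 = P.leadingCoeff ^ 2 := by
      have h2 := congrArg leadingCoeff h1
      rw [leadingCoeff_sub_of_degree_lt (degree_lt_degree hlt), leadingCoeff_mul,
        hD2.leadingCoeff, one_mul, leadingCoeff_pow, leadingCoeff_pow] at h2
      exact h2
    -- the step for the right sign
    have key : ∀ G₁ : K[X], G₁ ≠ 0 → G₁.natDegree = n → G₁.leadingCoeff = P.leadingCoeff →
        P ^ 2 - (X ^ 2 - 4) * G₁ ^ 2 = 4 →
        ∃ (N : ℕ) (ε σ : K), (ε = 1 ∨ ε = -1) ∧ (σ = 1 ∨ σ = -1) ∧ P = C ε * (ab K N).1 ∧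
          G₁ = C σ * (ab K N).2 := by
      intro G₁ h0 hd hl hp
      have hdeg := step_deg hPd hd h0 hl hp
      have hh := half (K := K)
      obtain ⟨N, ε, σ, hε, hσ, e1, e2⟩ := ih (C (1 / 2) * (X * P - (X ^ 2 - 4) * G₁))
        (C (1 / 2) * (X * G₁ - P)) hdeg (by
          set c : K[X] := C (1 / 2)
          linear_combination hp + (c * 2 + 1) * (P ^ 2 - (X ^ 2 - 4) * G₁ ^ 2) * hh)
      have f1 : P = C (1 / 2) * (X * (C ε * (ab K N).1) + (X ^ 2 - 4) * (C σ * (ab K N).2)) := by
        rw [← e1, ← e2]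
        set c : K[X] := C (1 / 2)
        linear_combination (-(c * 2 + 1) * P) * hh
      have f2 : G₁ = C (1 / 2) * (X * (C σ * (ab K N).2) + C ε * (ab K N).1) := by
        rw [← e1, ← e2]
        set c : K[X] := C (1 / 2)
        linear_combination (-(c * 2 + 1) * G₁) * hh
      by_cases hes : σ = ε
      · subst hes
        refine ⟨N + 1, σ, σ, hσ, hσ, ?_, ?_⟩
        · rw [ab_succ]
          refine f1.trans ?_
          simp only []
          ring
        · rw [ab_succ]
          refine f2.trans ?_
          simp only []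
          ring
      · have hse : σ = -ε := by
          rcases hε with rfl | rfl <;> rcases hσ with rfl | rfl <;>
            first | exact absurd rfl hes | simp
        subst hse
        cases N with
        | zero =>
          refine ⟨1, ε, ε, hε, hε, ?_, ?_⟩
          · rw [ab_succ]
            refine f1.trans ?_
            simp only [ab_zero]
            ring
          · rw [ab_succ]
            refine f2.trans ?_
            simp only [ab_zero]
            ring
        | succ M =>
          obtain ⟨g1, g2⟩ := down (K := K) M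
          refine ⟨M, ε, -ε, hε, hσ, ?_, ?_⟩
          · rw [← g1]
            refine f1.trans ?_
            rw [C_neg]
            ring
          · rw [← g2]
            refine f2.trans ?_
            rw [C_neg]
            ring
    rcases sq_eq_sq_iff_eq_or_eq_neg.1 hlead with hl | hl
    · exact key G hG0 hGd hl h
    · obtain ⟨N, ε, σ, hε, hσ, e1, e2⟩ := key (-G) (neg_ne_zero.2 hG0) (by rw [natDegree_neg, hGd])
        (by rw [leadingCoeff_neg, hl, neg_neg]) (by rw [neg_sq]; exact h)
      refine ⟨N, ε, -σ, hε, ?_, e1, ?_⟩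
      · rcases hσ with rfl | rfl
        · exact Or.inr rfl
        · left; norm_num
      · rw [C_neg, neg_mul, ← e2, neg_neg]

/-- A polynomial with `P ^ 2 - 4 = (X ^ 2 - 4) G ^ 2` is a Dickson polynomial up to sign. -/
theorem is_dickson {P G : K[X]} (h : P ^ 2 - (X ^ 2 - 4) * G ^ 2 = 4) :
    ∃ ε : K, (ε = 1 ∨ ε = -1) ∧ P = C ε * dickson 1 (1 : K) P.natDegree := by
  obtain ⟨N, ε, σ, hε, -, e1, -⟩ := descent P.natDegree P G le_rfl h
  rw [(ab_dickson N).1] at e1
  have hε0 : ε ≠ 0 := by rcases hε with rfl | rfl <;> norm_num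
  have hd : P.natDegree = N := by
    rw [e1, natDegree_C_mul hε0, (deg_dickson N).2]
  exact ⟨ε, hε, by rw [hd]; exact e1⟩

theorem t_C1 {K : Type u} [Field K] [IsAlgClosed K] [CharZero K] : S_C1 K := by
  constructor
  · rintro F ⟨w₁, w₂, hw, G, hG⟩ hF
    have hα : (w₁ - w₂) / 4 ≠ 0 := div_ne_zero (sub_ne_zero.2 hw) (by norm_num)
    set α := (w₁ - w₂) / 4 with hαd
    set β := (w₁ + w₂) / 2 with hβd
    have hL : (C α * X + C β).natDegree = 1 := natDegree_linear hα
    have ew₁ : C w₁ = C α * 2 + C β := by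
      have : (2 : K[X]) = C 2 := by rw [map_ofNat]
      rw [this, ← C_mul, ← C_add]
      congr 1
      rw [hαd, hβd]
      ring
    have ew₂ : C w₂ = C β - C α * 2 := by
      have : (2 : K[X]) = C 2 := by rw [map_ofNat]
      rw [this, ← C_mul, ← C_sub]
      congr 1
      rw [hαd, hβd]
      ring
    have hi : C α * C α⁻¹ = (1 : K[X]) := by rw [← C_mul, mul_inv_cancel₀ hα, C_1]
    set P : K[X] := C α⁻¹ * (F.comp (C α * X + C β) - C β) with hP
    have hFP : F.comp (C α * X + C β) = C α * P + C β := by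
      rw [hP]
      linear_combination (-(F.comp (C α * X + C β) - C β)) * hi
    have hdeg : P.natDegree = F.natDegree := by
      rw [hP, natDegree_C_mul (inv_ne_zero hα), natDegree_sub_C, natDegree_comp, hL, mul_one]
    have hpell : P ^ 2 - (X ^ 2 - 4) * (G.comp (C α * X + C β)) ^ 2 = 4 := by
      have h1 := congrArg (fun p : K[X] => p.comp (C α * X + C β)) hG
      simp only [mul_comp, sub_comp, C_comp, X_comp, pow_comp] at h1
      rw [hFP, ew₁, ew₂] at h1
      have h2 : C α ^ 2 * (P ^ 2 - (X ^ 2 - 4) * (G.comp (C α * X + C β)) ^ 2) = C α ^ 2 * 4 := by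
        linear_combination h1
      exact mul_left_cancel₀ (pow_ne_zero 2 (C_ne_zero.2 hα)) h2
    obtain ⟨ε, hε, hPε⟩ := is_dickson hpell
    refine ⟨C α * X + C β, hL, ε, hε, ?_⟩
    rw [hdeg] at hPε
    rw [hFP, add_comp, mul_comp, C_comp, X_comp, C_comp, ← hPε]
  · intro F L ε D hD hL hε h
    obtain ⟨α, hα, β, rfl⟩ : ∃ α : K, α ≠ 0 ∧ ∃ β, L = C α * X + C β := by
      refine ⟨L.coeff 1, ?_, L.coeff 0, ?_⟩
      · intro h0
        have h1 : L.leadingCoeff = 0 := by rw [leadingCoeff, hL]; exact h0
        rw [leadingCoeff_eq_zero.1 h1, natDegree_zero] at hL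
        omega
      · exact eq_X_add_C_of_natDegree_le_one hL.le
    have hi : C α * C α⁻¹ = (1 : K[X]) := by rw [← C_mul, mul_inv_cancel₀ hα, C_1]
    set M : K[X] := C α⁻¹ * (X - C β) with hM
    have hLM : (C α * X + C β).comp M = X := by
      rw [add_comp, mul_comp, C_comp, X_comp, C_comp, hM]
      linear_combination (X - C β) * hi
    have hF : F = C α * (C ε * (dickson 1 (1 : K) D).comp M) + C β := by
      have h1 := congrArg (fun p : K[X] => p.comp M) h
      rw [comp_assoc, hLM, comp_X, comp_assoc, mul_comp, C_comp, add_comp, mul_comp, C_comp,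
        X_comp, C_comp] at h1
      exact h1
    have hp := congrArg (fun p : K[X] => p.comp M) (pell (K := K) D)
    rw [(ab_dickson D).1] at hp
    simp only [sub_comp, mul_comp, pow_comp, X_comp, ofNat_comp] at hp
    have hε2 : C ε ^ 2 = (1 : K[X]) := by
      rcases hε with rfl | rfl
      · rw [C_1, one_pow]
      · rw [C_neg, C_1]; ring
    refine ⟨α * 2 + β, β - α * 2, ?_, ((ab K D).2).comp M, ?_⟩
    · intro h0
      have h1 : α * 4 = 0 := by linear_combination h0
      rcases mul_eq_zero.1 h1 with h2 | h2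
      · exact hα h2
      · exact absurd h2 (by norm_num)
    · have e1 : (C (α * 2 + β) : K[X]) = C α * 2 + C β := by
        rw [C_add, C_mul, map_ofNat]
      have e2 : (C (β - α * 2) : K[X]) = C β - C α * 2 := by
        rw [C_sub, C_mul, map_ofNat]
      rw [e1, e2, hF]
      have hMX : C α * M = X - C β := by
        rw [hM]
        linear_combination (X - C β) * hi
      set T := (dickson 1 (1 : K) D).comp M
      set U := ((ab K D).2).comp M
      linear_combination (C α ^ 2 * T ^ 2) * hε2 + (C α ^ 2) * hp +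
        (U ^ 2 * (C α * M + X - C β)) * hMX

end Pool.Agent.H154.CH211
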